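import Mathlib
import Pool.Agent.Lib.MP_c70440_co.Main

set_option autoImplicit false

/-- The Hoffman-Rodger conjecture on total colourings of complete multipartite graphs.

Let `K` be the complete multipartite graph with `p` parts of positive sizes `a i`, order
`n = ∑ i, a i`, and let `m` be the minimum part size, so that the maximum degree of `K` is
`n - m` and its deficiency is `∑ i, a i * (a i - m)`. Then `K` has a total colouring with
`n - m + 2` colours but none with `n - m + 1` colours (that is, its total chromatic number is
the maximum degree plus two) if and only if either `p = 2` and the two parts have the same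
size, or `n` is even and the deficiency is smaller than the number of parts of odd size. -/
theorem Pool.Agent.Results.MP_c70440_co.HoffmanRodger.result :
    ∀ (p : ℕ) (a : Fin p → ℕ), (∀ i, 0 < a i) →
    ∀ m : ℕ, (∃ i, a i = m) → (∀ i, m ≤ a i) →
      (((¬ ∃ cv : (Σ i : Fin p, Fin (a i)) → Fin ((∑ i, a i) - m + 1),
            ∃ ce : (SimpleGraph.completeMultipartiteGraph (fun i : Fin p => Fin (a i))).edgeSet →
              Fin ((∑ i, a i) - m + 1),
            (∀ u v : (Σ i : Fin p, Fin (a i)),
              (SimpleGraph.completeMultipartiteGraph (fun i : Fin p => Fin (a i))).Adj u v →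
                cv u ≠ cv v) ∧
            (∀ e f : (SimpleGraph.completeMultipartiteGraph (fun i : Fin p => Fin (a i))).edgeSet,
              e ≠ f → ∀ v : (Σ i : Fin p, Fin (a i)), v ∈ e.1 → v ∈ f.1 → ce e ≠ ce f) ∧
            (∀ e : (SimpleGraph.completeMultipartiteGraph (fun i : Fin p => Fin (a i))).edgeSet,
              ∀ v : (Σ i : Fin p, Fin (a i)), v ∈ e.1 → cv v ≠ ce e)) ∧
        (∃ cv : (Σ i : Fin p, Fin (a i)) → Fin ((∑ i, a i) - m + 2),
            ∃ ce : (SimpleGraph.completeMultipartiteGraph (fun i : Fin p => Fin (a i))).edgeSet →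
              Fin ((∑ i, a i) - m + 2),
            (∀ u v : (Σ i : Fin p, Fin (a i)),
              (SimpleGraph.completeMultipartiteGraph (fun i : Fin p => Fin (a i))).Adj u v →
                cv u ≠ cv v) ∧
            (∀ e f : (SimpleGraph.completeMultipartiteGraph (fun i : Fin p => Fin (a i))).edgeSet,
              e ≠ f → ∀ v : (Σ i : Fin p, Fin (a i)), v ∈ e.1 → v ∈ f.1 → ce e ≠ ce f) ∧
            (∀ e : (SimpleGraph.completeMultipartiteGraph (fun i : Fin p => Fin (a i))).edgeSet,
              ∀ v : (Σ i : Fin p, Fin (a i)), v ∈ e.1 → cv v ≠ ce e)))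
      ↔
      ((p = 2 ∧ ∀ i j, a i = a j) ∨
        (Even (∑ i, a i) ∧
          (∑ i, (a i * (a i - m))) < (Finset.univ.filter (fun i => Odd (a i))).card))) := by
  intro p a hpos m hex hmin
  exact TCM.hoffman_rodger p a hpos m hex hmin
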